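import Pool.Agent.H71.O2.Nuc

set_option autoImplicit false

/-!
End game after K7 (helper12's proof): if `th(a, b) b = b` for all `a, b` in a simple automorphic
loop then the loop is commutative or associative.
-/

namespace ALoop

open Equiv

variable {Q : Type*} {G : Subgroup (Perm Q)} {L : Q → Perm Q} {J : Perm Q} {e : Q}

/-- `a(x, y)` -/
def Ax (L : Q → Perm Q) (x y : Q) : Perm Q := (L (L x y))⁻¹ * L x * L y

/-- `L_x⁻¹ R_x` -/
def Tz (L : Q → Perm Q) (J : Perm Q) (x : Q) : Perm Q := (L x)⁻¹ * Rt L J x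

namespace AL0

section gen

theorem eg_appL (h : AL0 G L J e) {g : Perm Q} (hg : g ∈ G) (he : g e = e) (x y : Q) :
    g (L x y) = L (g x) (g y) := by
  rw [← h.equi g hg he x]
  simp [Perm.mul_apply]

theorem eg_appJ (h : AL0 G L J e) {g : Perm Q} (hg : g ∈ G) (he : g e = e) (x : Q) :
    g (J x) = J (g x) := by
  have := congrArg (fun p : Perm Q => p x) (h.comJ g hg he)
  simpa only [Perm.mul_apply] using this

theorem eg_conjR (h : AL0 G L J e) {g : Perm Q} (hg : g ∈ G) (he : g e = e) (x : Q) :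
    g * Rt L J x * g⁻¹ = Rt L J (g x) := by
  have h1 := h.comJ g hg he
  have h2 : J * g⁻¹ = g⁻¹ * J := by
    rw [mul_inv_eq_iff_eq_mul, mul_assoc, ← h1]; group
  unfold Rt
  rw [← h.eg_appJ hg he, ← h.equi g hg he]
  calc g * (J * L (J x) * J) * g⁻¹ = (g * J) * L (J x) * (J * g⁻¹) := by group
    _ = (J * g) * L (J x) * (g⁻¹ * J) := by rw [h1, h2]
    _ = _ := by group

theorem eg_conjT (h : AL0 G L J e) {g : Perm Q} (hg : g ∈ G) (he : g e = e) (x : Q) :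
    g * Tz L J x * g⁻¹ = Tz L J (g x) := by
  unfold Tz
  rw [← h.eg_conjR hg he, ← h.equi g hg he]
  group

theorem eg_conjA (h : AL0 G L J e) {g : Perm Q} (hg : g ∈ G) (he : g e = e) (x y : Q) :
    g * Ax L x y * g⁻¹ = Ax L (g x) (g y) := by
  unfold Ax
  rw [← h.eg_appL hg he, ← h.equi g hg he, ← h.equi g hg he, ← h.equi g hg he]
  group

theorem eg_conjTh (h : AL0 G L J e) {g : Perm Q} (hg : g ∈ G) (he : g e = e) (x y : Q) :
    g * Th L J x y * g⁻¹ = Th L J (g x) (g y) := by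
  unfold Th
  rw [← h.eg_conjR hg he, ← h.equi g hg he]
  group

theorem eg_Tz_mem (h : AL0 G L J e) (x : Q) : Tz L J x ∈ G :=
  G.mul_mem (G.inv_mem (h.memL x)) (h.memR x)

theorem eg_Tz_e (h : AL0 G L J e) (x : Q) : Tz L J x e = e := by
  unfold Tz
  rw [Perm.mul_apply, h.Rt_e, Perm.inv_eq_iff_eq, h.Le]

theorem eg_Tz_x (h : AL0 G L J e) (x : Q) : Tz L J x x = x := by
  unfold Tz
  rw [Perm.mul_apply, h.Rt_app, Perm.inv_eq_iff_eq]

theorem eg_R (_h : AL0 G L J e) (x : Q) : Rt L J x = L x * Tz L J x := by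
  unfold Tz; group

theorem eg_Ax_mem (h : AL0 G L J e) (x y : Q) : Ax L x y ∈ G :=
  G.mul_mem (G.mul_mem (G.inv_mem (h.memL _)) (h.memL _)) (h.memL _)

theorem eg_Ax_e (h : AL0 G L J e) (x y : Q) : Ax L x y e = e := by
  unfold Ax
  rw [Perm.mul_apply, Perm.mul_apply, h.Le, Perm.inv_eq_iff_eq, h.Le]

theorem eg_flex (h : AL0 G L J e) (y z : Q) : L y (L z y) = L (L y z) y := by
  have h1 := congrArg (fun f : Perm Q => f z) (h.flex y)
  simp only [Perm.mul_apply] at h1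
  rw [h.Rt_app, h.Rt_app] at h1
  exact h1

theorem eg_Ax_1 (h : AL0 G L J e) (x y : Q) : Ax L x y x = x := by
  unfold Ax
  rw [Perm.mul_apply, Perm.mul_apply, h.eg_flex, Perm.inv_eq_iff_eq]

theorem eg_LL (_h : AL0 G L J e) (x y : Q) : L x * L y = L (L x y) * Ax L x y := by
  unfold Ax; group

theorem eg_LR (_h : AL0 G L J e) (x z : Q) :
    L x * Rt L J z = Rt L J z * L x * Th L J x z := by
  unfold Th; group

/-- an inner mapping fixing `x` commutes with `T_x` -/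
theorem eg_comT (h : AL0 G L J e) {g : Perm Q} (hg : g ∈ G) (he : g e = e) {x : Q} (hx : g x = x) :
    g * Tz L J x = Tz L J x * g := by
  have h1 := h.eg_conjT hg he x
  rw [hx, mul_inv_eq_iff_eq_mul] at h1
  exact h1

end gen

section k7

theorem eg_th1 (h : AL0 G L J e) (k : ∀ a b, Th L J a b b = b) (a b : Q) : Th L J a b a = a := by
  have h1 := k (J b) (J a)
  rw [h.Th_inv, Perm.inv_eq_iff_eq] at h1
  have h2 := h.fixJ (h.Th_mem a b) (h.Th_e a b) h1.symm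
  rwa [h.JJ] at h2

theorem eg_thTx (h : AL0 G L J e) (k : ∀ a b, Th L J a b b = b) (a b : Q) :
    Th L J a b * Tx L J b = Tx L J b * Th L J a b := by
  have c1 := h.comL (h.Th_mem a b) (h.Th_e a b) (k a b)
  have c2 := h.comR (h.Th_mem a b) (h.Th_e a b) (k a b)
  unfold Tx
  have c3 : Th L J a b * (Rt L J b)⁻¹ = (Rt L J b)⁻¹ * Th L J a b := by
    rw [mul_inv_eq_iff_eq_mul, mul_assoc, c2]; group
  calc Th L J a b * (L b * (Rt L J b)⁻¹) = (Th L J a b * L b) * (Rt L J b)⁻¹ := by group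
    _ = L b * (Th L J a b * (Rt L J b)⁻¹) := by rw [c1]; group
    _ = _ := by rw [c3]; group

/-- `th(a, b⁻¹) = th(a, b)⁻¹` -/
theorem eg_thJ (h : AL0 G L J e) (k : ∀ a b, Th L J a b b = b) (a b : Q) :
    Th L J a (J b) = (Th L J a b)⁻¹ := by
  have h1 := h.K1 a b
  rw [h.eg_thTx k] at h1
  have h3 := mul_left_cancel h1
  rw [← h3, inv_inv]

/-- `th(b, a) = th(a, b)⁻¹` -/
theorem eg_thS (h : AL0 G L J e) (k : ∀ a b, Th L J a b b = b) (a b : Q) :
    Th L J b a = (Th L J a b)⁻¹ := by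
  have h1 := h.K2 a b
  rw [h.eg_thTx k] at h1
  have h3 := mul_left_cancel h1
  rw [← h3, h.eg_thJ k, inv_inv]

/-- right inverse property -/
theorem eg_RRJ (h : AL0 G L J e) (k : ∀ a b, Th L J a b b = b) (b : Q) :
    Rt L J b * Rt L J (J b) = 1 := by
  have h1 : ∀ a, (Rt L J b * Rt L J (J b)) * L a = L a * (Rt L J b * Rt L J (J b)) := by
    intro a
    have e1 := h.eg_LR a b
    have e2 := h.eg_LR a (J b)
    rw [h.eg_thJ k] at e2
    have c1 := h.comR (h.Th_mem a b) (h.Th_e a b) (h.fixJ (h.Th_mem a b) (h.Th_e a b) (k a b))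
    symm
    calc L a * (Rt L J b * Rt L J (J b)) = (L a * Rt L J b) * Rt L J (J b) := by group
      _ = Rt L J b * L a * (Th L J a b * Rt L J (J b)) := by rw [e1]; group
      _ = Rt L J b * (L a * Rt L J (J b)) * Th L J a b := by rw [c1]; group
      _ = _ := by rw [e2]; group
  ext a
  have h2 := congrArg (fun p : Perm Q => p e) (h1 a)
  simp only [Perm.mul_apply] at h2
  rw [h.Le] at h2
  rw [Perm.mul_apply, h2, h.Rt_e, h.Rt_app, h.JL, h.Le, Perm.one_apply]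

theorem eg_Rinv (h : AL0 G L J e) (k : ∀ a b, Th L J a b b = b) (b : Q) :
    Rt L J (J b) = (Rt L J b)⁻¹ := eq_inv_of_mul_eq_one_right (h.eg_RRJ k b)

theorem eg_Linv (h : AL0 G L J e) (k : ∀ a b, Th L J a b b = b) (b : Q) :
    L (J b) = (L b)⁻¹ := by
  have h1 := h.JRJ b
  have h2 := h.JRJ (J b)
  rw [h.JJ, h.eg_Rinv k] at h2
  rw [← h2, ← h1, mul_inv_rev, mul_inv_rev, h.Jinv, inv_inv]
  group

theorem eg_Ax_2 (h : AL0 G L J e) (k : ∀ a b, Th L J a b b = b) (x y : Q) : Ax L x y y = y := by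
  have h1 := congrArg (fun p : Perm Q => p y) (h.eg_LR x y)
  simp only [Perm.mul_apply] at h1
  rw [k, h.Rt_app, h.Rt_app] at h1
  unfold Ax
  rw [Perm.mul_apply, Perm.mul_apply, h1, Perm.inv_eq_iff_eq]

theorem eg_Ax_12 (h : AL0 G L J e) (k : ∀ a b, Th L J a b b = b) (x y : Q) :
    Ax L x y (L x y) = L x y := by
  rw [h.eg_appL (h.eg_Ax_mem x y) (h.eg_Ax_e x y), h.eg_Ax_1, h.eg_Ax_2 k]

/-- `R_(yz) = R_z R_y a(y, z)` -/
theorem eg_RR (h : AL0 G L J e) (k : ∀ a b, Th L J a b b = b) (y z : Q) :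
    Rt L J (L y z) = Rt L J z * Rt L J y * Ax L y z := by
  have h1 := h.comJ _ (h.eg_Ax_mem y z) (h.eg_Ax_e y z)
  have h2 : Ax L y z = J * Ax L y z * J := by rw [← h1, mul_assoc, h.JJ1, mul_one]
  have h3 : J * (L (L y z))⁻¹ * J = Rt L J (L y z) := by
    have := h.JLJ (L y z)
    rw [h.eg_Rinv k] at this
    rw [← inv_inj, ← this, mul_inv_rev, mul_inv_rev, inv_inv, h.Jinv]; group
  have h4 : J * L y * J = (Rt L J y)⁻¹ := by rw [h.JLJ, h.eg_Rinv k]
  have h5 : J * L z * J = (Rt L J z)⁻¹ := by rw [h.JLJ, h.eg_Rinv k]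
  have h6 : Ax L y z = Rt L J (L y z) * (Rt L J y)⁻¹ * (Rt L J z)⁻¹ := by
    rw [h2]
    unfold Ax
    rw [← h3, ← h4, ← h5]
    calc J * ((L (L y z))⁻¹ * L y * L z) * J =
        J * (L (L y z))⁻¹ * 1 * L y * 1 * L z * J := by group
      _ = J * (L (L y z))⁻¹ * (J * J) * L y * (J * J) * L z * J := by rw [h.JJ1]
      _ = _ := by group
  have h7 : Rt L J z * Rt L J y * Ax L y z = Ax L y z * Rt L J z * Rt L J y := by
    have c1 := h.comR (h.eg_Ax_mem y z) (h.eg_Ax_e y z) (h.eg_Ax_1 y z)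
    have c2 := h.comR (h.eg_Ax_mem y z) (h.eg_Ax_e y z) (h.eg_Ax_2 k y z)
    calc Rt L J z * Rt L J y * Ax L y z = Rt L J z * (Rt L J y * Ax L y z) := by group
      _ = (Rt L J z * Ax L y z) * Rt L J y := by rw [← c1]; group
      _ = _ := by rw [← c2]
  rw [h7, h6]
  group

/-- (3) -/
theorem eg_3a (h : AL0 G L J e) (k : ∀ a b, Th L J a b b = b) (x y z : Q) :
    L x (L y z) = Ax L x y (L (L x y) z) := by
  have h1 := congrArg (fun p : Perm Q => p z) (h.eg_LL x y)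
  simp only [Perm.mul_apply] at h1
  rw [h1, h.eg_appL (h.eg_Ax_mem x y) (h.eg_Ax_e x y), h.eg_Ax_12 k]

theorem eg_3b (h : AL0 G L J e) (k : ∀ a b, Th L J a b b = b) (x y z : Q) :
    L x (L y z) = Th L J x z (L (L x y) z) := by
  have h1 := congrArg (fun p : Perm Q => p y) (h.eg_LR x z)
  simp only [Perm.mul_apply] at h1
  rw [h.Rt_app, h.Rt_app] at h1
  rw [h1, h.eg_appL (h.Th_mem x z) (h.Th_e x z), h.eg_appL (h.Th_mem x z) (h.Th_e x z), k,
    h.eg_th1 k]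

theorem eg_3c (h : AL0 G L J e) (k : ∀ a b, Th L J a b b = b) (x y z : Q) :
    L x (L y z) = Ax L y z (L (L x y) z) := by
  have h1 := congrArg (fun p : Perm Q => p x) (h.eg_RR k y z)
  simp only [Perm.mul_apply] at h1
  rw [h.Rt_app, h.Rt_app, h.Rt_app] at h1
  rw [h1, h.eg_appL (h.eg_Ax_mem y z) (h.eg_Ax_e y z),
    h.eg_appL (h.eg_Ax_mem y z) (h.eg_Ax_e y z), h.eg_Ax_1, h.eg_Ax_2 k]

/-- (4): `a(x, z) = a(z, x)⁻¹` -/
theorem eg_4 (h : AL0 G L J e) (k : ∀ a b, Th L J a b b = b) (x z : Q) :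
    Ax L x z = (Ax L z x)⁻¹ := by
  have hT : ∀ a b, Ax L a (Tz L J a b) = Ax L a b := by
    intro a b
    have h1 := h.eg_conjA (h.eg_Tz_mem a) (h.eg_Tz_e a) a b
    rw [h.eg_Tz_x] at h1
    have h2 := h.eg_comT (h.eg_Ax_mem a b) (h.eg_Ax_e a b) (h.eg_Ax_1 a b)
    rw [← h1, ← h2]; group
  have hT' : ∀ a b, Ax L ((Tz L J a)⁻¹ b) a = Ax L b a := by
    intro a b
    have h1 := h.eg_conjA (G.inv_mem (h.eg_Tz_mem a))
      (by rw [Perm.inv_eq_iff_eq, h.eg_Tz_e]) b a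
    have h3 : (Tz L J a)⁻¹ a = a := by rw [Perm.inv_eq_iff_eq, h.eg_Tz_x]
    rw [h3] at h1
    have h2 := h.eg_comT (h.eg_Ax_mem b a) (h.eg_Ax_e b a) (h.eg_Ax_2 k b a)
    rw [← h1, inv_inv, mul_assoc, h2]; group
  have hTh : ∀ a b, Th L J a (Tz L J a b) = Th L J a b := by
    intro a b
    have h1 := h.eg_conjTh (h.eg_Tz_mem a) (h.eg_Tz_e a) a b
    rw [h.eg_Tz_x] at h1
    have h2 := h.eg_comT (h.Th_mem a b) (h.Th_e a b) (h.eg_th1 k a b)
    rw [← h1, ← h2]; group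
  have key : ∀ y, Ax L x z (L (L x y) z) = (Ax L z x)⁻¹ (L (L x y) z) := by
    intro y
    -- first
    have e1 : L x y = L y (Tz L J y x) := by
      rw [← h.Rt_app y x, h.eg_R y, Perm.mul_apply]
    have f1 := h.eg_3a k y (Tz L J y x) z
    have f2 := h.eg_3b k y (Tz L J y x) z
    rw [← e1, hT] at f1
    rw [← e1] at f2
    have g1 : Ax L y x (L (L x y) z) = Th L J y z (L (L x y) z) := by rw [← f1, f2]
    -- second
    have e2 : L x y = L ((Tz L J x)⁻¹ y) x := by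
      rw [← h.Rt_app x, h.eg_R x, Perm.mul_apply, apply_inv']
    have f3 := h.eg_3a k ((Tz L J x)⁻¹ y) x z
    have f4 := h.eg_3c k ((Tz L J x)⁻¹ y) x z
    rw [← e2, hT'] at f3
    rw [← e2] at f4
    have g2 : Ax L y x (L (L x y) z) = Ax L x z (L (L x y) z) := by rw [← f3, f4]
    -- third
    have e3 : L (L x y) z = L z (L (Tz L J z x) (Tz L J z y)) := by
      rw [← h.Rt_app z, h.eg_R z, Perm.mul_apply, h.eg_appL (h.eg_Tz_mem z) (h.eg_Tz_e z)]
    have f5 := h.eg_3a k z (Tz L J z x) (Tz L J z y)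
    have f6 := h.eg_3b k z (Tz L J z x) (Tz L J z y)
    rw [← e3, hT] at f5
    rw [← e3, hTh] at f6
    have f7 := (Perm.inv_eq_iff_eq.2 f5).symm
    have f8 := (Perm.inv_eq_iff_eq.2 f6).symm
    have g3 : (Ax L z x)⁻¹ (L (L x y) z) = Th L J y z (L (L x y) z) := by
      rw [h.eg_thS k z y, ← f7, f8]
    rw [← g2, g1, g3]
  ext g
  have h1 := key ((L x)⁻¹ ((Rt L J z)⁻¹ g))
  have h2 : L (L x ((L x)⁻¹ ((Rt L J z)⁻¹ g))) z = g := by
    rw [apply_inv', ← h.Rt_app z, apply_inv']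
  rwa [h2] at h1

/-- (5): `th(q, x) = a(q, x)²` -/
theorem eg_5 (h : AL0 G L J e) (k : ∀ a b, Th L J a b b = b) (q x : Q) :
    Th L J q x = Ax L q x * Ax L q x := by
  -- `L_x L_q = L_x L_q th(x,q)⁻¹ a(q,x)⁻¹ a(x,q)`
  have e1 : L x q = Tz L J q (L q x) := by
    rw [h.eg_appL (h.eg_Tz_mem q) (h.eg_Tz_e q), h.eg_Tz_x, ← h.Rt_app q x, h.eg_R q,
      Perm.mul_apply]
  have e2 := h.eg_LL x q
  have e3 := h.equi _ (h.eg_Tz_mem q) (h.eg_Tz_e q) (L q x)
  rw [← e1] at e3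
  have e4 : L (L q x) = L q * L x * (Ax L q x)⁻¹ := by rw [h.eg_LL q x]; group
  have c1 := h.eg_comT (h.eg_Ax_mem q x) (h.eg_Ax_e q x) (h.eg_Ax_1 q x)
  have c2 := h.comL (h.eg_Tz_mem q) (h.eg_Tz_e q) (h.eg_Tz_x q)
  -- `T_q L_x T_q⁻¹ = L_q⁻¹ L_x L_q th(x,q)⁻¹`
  have c3 := h.comR (h.Th_mem x q) (h.Th_e x q) (k x q)
  have c4 := h.comL (h.Th_mem x q) (h.Th_e x q) (k x q)
  have e5 : Tz L J q * L x * (Tz L J q)⁻¹ = (L q)⁻¹ * L x * L q * (Th L J x q)⁻¹ := by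
    have f1 := h.eg_LR x q
    have f2 : Rt L J q * L x * (Rt L J q)⁻¹ = L x * (Th L J x q)⁻¹ := by
      have f3 : Rt L J q * L x = L x * Rt L J q * (Th L J x q)⁻¹ := by rw [f1]; group
      rw [mul_inv_eq_iff_eq_mul, f3]
      have f4 : (Th L J x q)⁻¹ * Rt L J q = Rt L J q * (Th L J x q)⁻¹ := by
        rw [inv_mul_eq_iff_eq_mul, ← mul_assoc, c3]; group
      rw [mul_assoc, ← f4]; group
    have f5 : (Th L J x q)⁻¹ * L q = L q * (Th L J x q)⁻¹ := by
      rw [inv_mul_eq_iff_eq_mul, ← mul_assoc, c4]; group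
    have f6 : Tz L J q * L x * (Tz L J q)⁻¹ =
        (L q)⁻¹ * (Rt L J q * L x * (Rt L J q)⁻¹) * L q := by unfold Tz; group
    rw [f6, f2]
    calc (L q)⁻¹ * (L x * (Th L J x q)⁻¹) * L q = (L q)⁻¹ * L x * ((Th L J x q)⁻¹ * L q) := by group
      _ = _ := by rw [f5]; group
  have e6 : L x * L q = L x * L q * ((Th L J x q)⁻¹ * (Ax L q x)⁻¹ * Ax L x q) := by
    have c5 : (Ax L q x)⁻¹ * (Tz L J q)⁻¹ = (Tz L J q)⁻¹ * (Ax L q x)⁻¹ := by
      rw [← mul_inv_rev, ← mul_inv_rev, c1]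
    calc L x * L q = Tz L J q * L (L q x) * (Tz L J q)⁻¹ * Ax L x q := by rw [e3, ← e2]
      _ = (Tz L J q * L q) * L x * ((Ax L q x)⁻¹ * (Tz L J q)⁻¹) * Ax L x q := by rw [e4]; group
      _ = L q * (Tz L J q * L x * (Tz L J q)⁻¹) * (Ax L q x)⁻¹ * Ax L x q := by
          rw [c2, c5]; group
      _ = _ := by rw [e5]; group
  have e7 : (Th L J x q)⁻¹ * (Ax L q x)⁻¹ * Ax L x q = 1 := by
    have e6' : L x * L q * 1 = L x * L q * ((Th L J x q)⁻¹ * (Ax L q x)⁻¹ * Ax L x q) := by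
      rw [mul_one]; exact e6
    exact (mul_left_cancel e6').symm
  have e8 := h.eg_4 k x q
  have e9 := h.eg_thS k x q
  rw [← e9, e8] at e7
  calc Th L J q x = (Th L J q x * (Ax L q x)⁻¹ * (Ax L q x)⁻¹) * Ax L q x * Ax L q x := by group
    _ = _ := by rw [e7, one_mul]

/-- (6): `T_(qx) = T_x T_q` -/
theorem eg_6 (h : AL0 G L J e) (k : ∀ a b, Th L J a b b = b) (q x : Q) :
    Tz L J (L q x) = Tz L J x * Tz L J q := by
  have e1 : (L (L q x))⁻¹ = Ax L q x * (L x)⁻¹ * (L q)⁻¹ := by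
    have := h.eg_LL q x
    have h2 : L (L q x) = L q * L x * (Ax L q x)⁻¹ := by rw [this]; group
    rw [h2]; group
  have e2 := h.eg_RR k q x
  have e3 : (L q)⁻¹ * Rt L J x = Rt L J x * (Th L J q x)⁻¹ * (L q)⁻¹ := by
    unfold Th; group
  have c1 := h.eg_comT (h.eg_Ax_mem q x) (h.eg_Ax_e q x) (h.eg_Ax_2 k q x)
  have c2 := h.eg_comT (h.eg_Ax_mem q x) (h.eg_Ax_e q x) (h.eg_Ax_1 q x)
  have e5 := h.eg_5 k q x
  have c3 : (Ax L q x)⁻¹ * Tz L J q = Tz L J q * (Ax L q x)⁻¹ := by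
    rw [inv_mul_eq_iff_eq_mul, ← mul_assoc, c2]; group
  calc Tz L J (L q x) = Ax L q x * (L x)⁻¹ * ((L q)⁻¹ * Rt L J x) * Rt L J q * Ax L q x := by
        conv_lhs => unfold Tz
        rw [e1, e2]; group
    _ = Ax L q x * Tz L J x * (Ax L q x)⁻¹ * ((Ax L q x)⁻¹ * Tz L J q) * Ax L q x := by
        rw [e3, e5]; unfold Tz; group
    _ = Ax L q x * Tz L J x * ((Ax L q x)⁻¹ * Tz L J q) := by
        nth_rewrite 1 [c3]; group
    _ = Tz L J x * (Ax L q x * Tz L J q) * (Ax L q x)⁻¹ := by rw [c3, c1]; group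
    _ = _ := by rw [c2]; group

/-- (7): every `a(x, y)` commutes with every `T_z` -/
theorem eg_7 (h : AL0 G L J e) (k : ∀ a b, Th L J a b b = b) (x y z : Q) :
    Ax L x y * Tz L J z = Tz L J z * Ax L x y := by
  have e1 := h.eg_3a k x y z
  have e2 : Tz L J (L x (L y z)) = Tz L J z * Tz L J y * Tz L J x := by
    rw [h.eg_6 k, h.eg_6 k]
  have e3 : Tz L J (L (L x y) z) = Tz L J z * Tz L J y * Tz L J x := by
    rw [h.eg_6 k, h.eg_6 k, mul_assoc]
  have e4 := h.eg_conjT (h.eg_Ax_mem x y) (h.eg_Ax_e x y) (L (L x y) z)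
  rw [← e1, e2, e3, mul_inv_eq_iff_eq_mul] at e4
  have c1 := h.eg_comT (h.eg_Ax_mem x y) (h.eg_Ax_e x y) (h.eg_Ax_2 k x y)
  have c2 := h.eg_comT (h.eg_Ax_mem x y) (h.eg_Ax_e x y) (h.eg_Ax_1 x y)
  have e5 : Ax L x y * Tz L J z * (Tz L J y * Tz L J x) =
      Tz L J z * Ax L x y * (Tz L J y * Tz L J x) := by
    calc Ax L x y * Tz L J z * (Tz L J y * Tz L J x) =
        Ax L x y * (Tz L J z * Tz L J y * Tz L J x) := by group
      _ = Tz L J z * Tz L J y * (Tz L J x * Ax L x y) := by rw [e4]; group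
      _ = Tz L J z * (Tz L J y * Ax L x y) * Tz L J x := by rw [← c2]; group
      _ = _ := by rw [← c1]; group
  exact mul_right_cancel e5

/-- (8): every `a(x, y)` fixes every commutator `v⁻¹ (T_w v)` -/
theorem eg_8 (h : AL0 G L J e) (k : ∀ a b, Th L J a b b = b) (x y v w : Q) :
    Ax L x y ((L v)⁻¹ (Tz L J w v)) = (L v)⁻¹ (Tz L J w v) := by
  have form : ∀ v, (L v)⁻¹ (Tz L J w v) = L (Tz L J v (J w)) w := by
    intro v
    have f1 : Tz L J w v = L (L (J w) v) w := by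
      have g1 : Tz L J w v = L (J w) (L v w) := by
        unfold Tz
        rw [Perm.mul_apply, h.Rt_app, h.eg_Linv k]
      have g2 := congrArg (fun p : Perm Q => p w) (h.eg_LL (J w) v)
      simp only [Perm.mul_apply] at g2
      have g3 : Ax L (J w) v w = w := by
        have := h.fixJ (h.eg_Ax_mem (J w) v) (h.eg_Ax_e (J w) v) (h.eg_Ax_1 (J w) v)
        rwa [h.JJ] at this
      rw [g1, g2, g3]
    have f2 : L (J v) (L (L (J w) v) w) = L (L (J v) (L (J w) v)) w := by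
      have g2 := congrArg (fun p : Perm Q => p w) (h.eg_LL (J v) (L (J w) v))
      simp only [Perm.mul_apply] at g2
      have gG := h.eg_Ax_mem (J v) (L (J w) v)
      have ge := h.eg_Ax_e (J v) (L (J w) v)
      have g1 := h.eg_Ax_1 (J v) (L (J w) v)
      have g3 := h.eg_Ax_2 k (J v) (L (J w) v)
      have g4 : L (L (J w) v) (J v) = J w := by
        rw [← h.Rt_app (J v), ← h.Rt_app v (J w), h.eg_Rinv k, inv_apply']
      have g5 : Ax L (J v) (L (J w) v) (J w) = J w := by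
        have g6 := h.eg_appL gG ge (L (J w) v) (J v)
        rw [g4, g1, g3, g4] at g6
        exact g6
      have g7 := h.fixJ gG ge g5
      rw [h.JJ] at g7
      rw [g2, g7]
    rw [f1, ← h.eg_Linv k v, f2]
    have f3 : L (J v) (L (J w) v) = Tz L J v (J w) := by
      unfold Tz
      rw [Perm.mul_apply, h.Rt_app, h.eg_Linv k]
    rw [f3]
  have hG := h.eg_Ax_mem x y
  have he := h.eg_Ax_e x y
  obtain ⟨K, hK⟩ : ∃ K, K = Ax L x y := ⟨_, rfl⟩
  rw [← hK] at hG he ⊢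
  have hKT : ∀ z, Tz L J (K z) = Tz L J z := by
    intro z
    rw [← h.eg_conjT hG he z, hK, h.eg_7 k, mul_assoc, mul_inv_cancel, mul_one]
  have hKc : ∀ z, K (Tz L J w z) = Tz L J w (K z) := by
    intro z
    have := congrArg (fun p : Perm Q => p z) (h.eg_7 k x y w)
    simp only [Perm.mul_apply] at this
    rw [hK]; exact this
  have h1 : K ((L v)⁻¹ (Tz L J w v)) = (L (K v))⁻¹ (Tz L J w (K v)) := by
    rw [← h.eg_Linv k v, h.eg_appL hG he, h.eg_appJ hG he, hKc, h.eg_Linv k]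
  rw [h1, form, hKT, ← form]

end k7

end AL0

/-- End game: K7 implies commutative or associative -/
theorem AL.eg_end (h : AL G L J e) (k : ∀ a b, Th L J a b b = b) :
    (∀ x, Rt L J x = L x) ∨ Assoc L := by
  have h0 := h.al0
  -- the subloop of the fixed points of all `a(x, y)`
  let F : Q → Prop := fun c => ∀ x y, Ax L x y c = c
  have hF1 : ∀ x f g, F g → L (L x f) g = L x (L f g) := by
    intro x f g hg
    have h1 := congrArg (fun p : Perm Q => p g) (h0.eg_LL x f)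
    simp only [Perm.mul_apply] at h1
    rw [hg x f] at h1
    exact h1.symm
  have hFe : F e := fun x y => h0.eg_Ax_e x y
  have hFm : ∀ f g, F f → F g → F (L f g) := by
    intro f g hf hg x y
    rw [h0.eg_appL (h0.eg_Ax_mem x y) (h0.eg_Ax_e x y), hf, hg]
  have hFJ : ∀ f, F f → F (J f) := by
    intro f hf x y
    rw [h0.eg_appJ (h0.eg_Ax_mem x y) (h0.eg_Ax_e x y), hf]
  have hFH : ∀ g ∈ G, g e = e → ∀ c, F c → F (g c) := by
    intro g hg hge c hc x y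
    have h1 := h0.eg_conjA hg hge (g⁻¹ x) (g⁻¹ y)
    rw [apply_inv', apply_inv'] at h1
    rw [← h1, Perm.mul_apply, Perm.mul_apply, inv_apply', hc]
  have heq : Equivalence (fun x y => F ((L x)⁻¹ y)) := by
    refine ⟨fun x => ?_, fun {x y} hxy => ?_, fun {x y z} hxy hyz => ?_⟩
    · have : (L x)⁻¹ x = e := by rw [Perm.inv_eq_iff_eq, h.Le]
      rw [this]; exact hFe
    · obtain ⟨f, hf⟩ : ∃ f, f = (L x)⁻¹ y := ⟨_, rfl⟩
      rw [← hf] at hxy
      have h1 : L x f = y := by rw [hf, apply_inv']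
      have h2 : (L y)⁻¹ x = J f := by
        rw [Perm.inv_eq_iff_eq, ← h1, hF1 x f (J f) (hFJ f hxy), h.LJ, h.Le]
      rw [h2]
      exact hFJ f hxy
    · obtain ⟨f, hf⟩ : ∃ f, f = (L x)⁻¹ y := ⟨_, rfl⟩
      obtain ⟨g, hg⟩ : ∃ g, g = (L y)⁻¹ z := ⟨_, rfl⟩
      rw [← hf] at hxy
      rw [← hg] at hyz
      have h1 : L x f = y := by rw [hf, apply_inv']
      have h2 : L y g = z := by rw [hg, apply_inv']
      have h3 : (L x)⁻¹ z = L f g := by
        rw [Perm.inv_eq_iff_eq, ← h2, ← h1, hF1 x f g hyz]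
      rw [h3]
      exact hFm f g hxy hyz
  have hinv : ∀ g ∈ G, ∀ x y, F ((L x)⁻¹ y) → F ((L (g x))⁻¹ (g y)) := by
    intro g hg x y hxy
    have hk : (L (g x))⁻¹ * g * L x ∈ G :=
      G.mul_mem (G.mul_mem (G.inv_mem (h.memL _)) hg) (h.memL _)
    have hke : ((L (g x))⁻¹ * g * L x) e = e := by
      rw [Perm.mul_apply, Perm.mul_apply, h.Le, Perm.inv_eq_iff_eq, h.Le]
    have h1 := hFH _ hk hke _ hxy
    have h2 : ((L (g x))⁻¹ * g * L x) ((L x)⁻¹ y) = (L (g x))⁻¹ (g y) := by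
      rw [Perm.mul_apply, Perm.mul_apply, apply_inv']
    rwa [h2] at h1
  rcases h.prim (fun x y => F ((L x)⁻¹ y)) heq hinv with hr | hr
  · left
    have h1 : ∀ c, F c → c = e := by
      intro c hc
      have h2 : F ((L e)⁻¹ c) := by rw [h0.Le1]; exact hc
      exact (hr e c h2).symm
    intro w
    have h2 : Tz L J w = 1 := by
      ext v
      have h3 := h1 _ (fun x y => h0.eg_8 k x y v w)
      rw [Perm.inv_eq_iff_eq, h.Le] at h3
      rw [h3, Perm.one_apply]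
    rw [h0.eg_R w, h2, mul_one]
  · right
    intro x y z
    have h1 := hr e z
    rw [h0.Le1] at h1
    exact hF1 x y z h1

end ALoop
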